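import Pool.Agent.helper45.SGC.Spec

set_option autoImplicit false

namespace Pool.Agent.SGC

open Finset Pool.Agent.helper38.Neg Pool.Agent.helper55.NT

theorem LGT_add {r : ℕ} (y z : Fin r → ZMod 2) : hw (y + z) ≤ hw y + hw z := by
  unfold hw
  refine le_trans (card_le_card ?_) (card_union_le _ _)
  intro e he
  rw [mem_union, mem_filter, mem_filter]
  rw [mem_filter] at he
  by_cases h : y e ≠ 0
  · exact Or.inl ⟨mem_univ _, h⟩
  · refine Or.inr ⟨mem_univ _, fun h1 => he.2 ?_⟩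
    rw [Pi.add_apply, not_not.1 h, h1, add_zero]

theorem LGT_zmod (a : ZMod 2) (h : a ≠ 0) : a = 1 := by
  revert a
  decide

theorem LGT_half {r : ℕ} (S : Finset (Fin r → ZMod 2)) (hS : ∀ y ∈ S, ∀ z ∈ S, y + z ∈ S) (e : Fin r)
    (y₀ : Fin r → ZMod 2) (h0 : y₀ ∈ S) (h1 : y₀ e ≠ 0) :
    2 * (S.filter fun y => y e ≠ 0).card = S.card := by
  classical
  have h2 : (S.filter fun y => y e ≠ 0).card = (S.filter fun y => ¬ y e ≠ 0).card := by
    have hyy : ∀ y : Fin r → ZMod 2, y + y₀ + y₀ = y := by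
      intro y
      funext i
      rw [Pi.add_apply, Pi.add_apply]
      have h3 : ∀ a b : ZMod 2, a + b + b = a := by decide
      exact h3 _ _
    refine card_bij (fun y _ => y + y₀) ?_ ?_ ?_
    · intro y hy
      rw [mem_filter] at hy ⊢
      refine ⟨hS y hy.1 y₀ h0, ?_⟩
      rw [not_not, Pi.add_apply, LGT_zmod _ hy.2, LGT_zmod _ h1]
      decide
    · intro y _ z _ h
      have h3 : y + y₀ + y₀ = z + y₀ + y₀ := congrArg (fun w => w + y₀) h
      rw [hyy, hyy] at h3
      exact h3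
    · intro y hy
      rw [mem_filter, not_not] at hy
      refine ⟨y + y₀, ?_, hyy y⟩
      rw [mem_filter]
      refine ⟨hS y hy.1 y₀ h0, ?_⟩
      rw [Pi.add_apply, hy.2, zero_add]
      exact h1
  have h3 := card_filter_add_card_filter_not (s := S) (fun y => y e ≠ 0)
  omega

theorem LGT : LGT_stmt := by
  classical
  intro r c A hc hA
  set S : Finset (Fin r → ZMod 2) := univ.filter fun y => y ∈ A ∧ hw y ≤ c with hSdef
  have hSm : ∀ y, y ∈ S ↔ y ∈ A ∧ hw y ≤ c := by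
    intro y
    rw [hSdef, mem_filter]
    exact ⟨fun h => h.2, fun h => ⟨mem_univ _, h⟩⟩
  have hS : ∀ y ∈ S, ∀ z ∈ S, y + z ∈ S := by
    intro y hy z hz
    rw [hSm] at hy hz ⊢
    have h1 := A.add_mem hy.1 hz.1
    refine ⟨h1, ?_⟩
    have h2 := LGT_add y z
    rcases hA _ h1 with h3 | h3
    · exact h3
    · omega
  have hS0 : 0 < S.card := by
    refine card_pos.2 ⟨0, ?_⟩
    rw [hSm]
    refine ⟨A.zero_mem, ?_⟩
    unfold hw
    simp
  set U : Finset (Fin r) := univ.filter fun e => ∃ y ∈ S, y e ≠ 0 with hUdef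
  have hUm : ∀ e, e ∈ U ↔ ∃ y ∈ S, y e ≠ 0 := by
    intro e
    rw [hUdef, mem_filter]
    exact ⟨fun h => h.2, fun h => ⟨mem_univ _, h⟩⟩
  refine ⟨U, ?_, ?_⟩
  · have h1 : ∑ y ∈ S, hw y = ∑ e ∈ U, (S.filter fun y => y e ≠ 0).card := by
      have h2 := sum_card_bipartiteAbove_eq_sum_card_bipartiteBelow (s := S) (t := U)
        (fun (y : Fin r → ZMod 2) (e : Fin r) => y e ≠ 0)
      unfold bipartiteAbove bipartiteBelow at h2
      rw [← h2]
      refine sum_congr rfl fun y hy => ?_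
      unfold hw
      refine congrArg card (Finset.ext fun e => ?_)
      rw [mem_filter, mem_filter, hUm]
      exact ⟨fun h => ⟨⟨y, hy, h.2⟩, h.2⟩, fun h => ⟨mem_univ _, h.2⟩⟩
    have h3 : 2 * ∑ y ∈ S, hw y = U.card * S.card := by
      rw [h1, mul_sum, card_eq_sum_ones U, sum_mul]
      refine sum_congr rfl fun e he => ?_
      obtain ⟨y₀, h4, h5⟩ := (hUm e).1 he
      rw [one_mul]
      exact LGT_half S hS e y₀ h4 h5
    have h6 : ∑ y ∈ S, hw y ≤ S.card * c := by
      refine (sum_le_card_nsmul S _ c fun y hy => ((hSm y).1 hy).2).trans ?_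
      rw [smul_eq_mul]
    have h7 : U.card * S.card ≤ 2 * c * S.card := by
      calc U.card * S.card = 2 * ∑ y ∈ S, hw y := h3.symm
        _ ≤ 2 * (S.card * c) := Nat.mul_le_mul_left 2 h6
        _ = 2 * c * S.card := by ring
    exact Nat.le_of_mul_le_mul_right h7 hS0
  · intro y hy hyc e he
    exact (hUm e).2 ⟨y, (hSm y).2 ⟨hy, hyc⟩, he⟩

end Pool.Agent.SGC
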